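import Mathlib
import Pool.Agent.helper81.PMGauss

/-!
# IG: parity of the partition function in all arithmetic progressions: definitions
-/

set_option autoImplicit false

open Polynomial

noncomputable section

namespace Pool.Agent.helper7.IG

/-- The algebraic closure of the field with two elements. -/
abbrev kk : Type := AlgebraicClosure (ZMod 2)

/-- Laurent series over `kk`. -/
abbrev LL : Type := HahnSeries ℤ kk

/-- The standard `kk`-algebra structure (it wins over the one coming from power series). -/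
instance (priority := 10000) algLL : Algebra kk LL := HahnSeries.instAlgebra

/-- The substitution `X ↦ ζ X`. -/
def twist (ζ : kkˣ) : LL →ₐ[kk] LL where
  toFun F := HahnSeries.ofSuppBddBelow (fun n => ((ζ ^ n : kkˣ) : kk) * F.coeff n) (by
    refine ⟨F.order, fun n hn => ?_⟩
    by_contra h
    push Not at h
    apply hn
    simp only
    rw [HahnSeries.coeff_eq_zero_of_lt_order h, mul_zero])
  map_one' := by
    ext n
    simp only [HahnSeries.coeff_ofSuppBddBelow, HahnSeries.coeff_one]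
    split_ifs with h
    · simp [h]
    · simp
  map_mul' F G := by
    ext n
    simp only [HahnSeries.coeff_ofSuppBddBelow, HahnSeries.coeff_mul]
    rw [Finset.mul_sum]
    refine Finset.sum_congr ?_ ?_
    · ext ⟨i, j⟩
      simp only [Finset.mem_antidiagonal, HahnSeries.mem_support,
        HahnSeries.coeff_ofSuppBddBelow, ne_eq, mul_eq_zero, Units.ne_zero, false_or]
    · rintro ⟨i, j⟩ hij
      simp only [Finset.mem_antidiagonal] at hij
      have h : i + j = n := hij.2.2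
      rw [← h, zpow_add]
      push_cast
      ring
  map_zero' := by
    ext n
    simp
  map_add' F G := by
    ext n
    simp only [HahnSeries.coeff_ofSuppBddBelow, HahnSeries.coeff_add]
    ring
  commutes' r := by
    have h0 : algebraMap kk LL r = HahnSeries.C r := rfl
    rw [h0]
    ext n
    simp only [HahnSeries.coeff_ofSuppBddBelow, HahnSeries.C_apply, HahnSeries.coeff_single]
    split_ifs with h
    · simp [h]
    · simp

lemma twist_coeff (ζ : kkˣ) (F : LL) (n : ℤ) :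
    (twist ζ F).coeff n = ((ζ ^ n : kkˣ) : kk) * F.coeff n := by
  simp only [twist, AlgHom.coe_mk, RingHom.coe_mk, MonoidHom.coe_mk, OneHom.coe_mk,
    HahnSeries.coeff_ofSuppBddBelow]

/-- The substitution `X ↦ X ^ e`, for `e ≠ 0`. -/
def dil (e : ℕ) (he : e ≠ 0) : LL →ₐ[kk] LL :=
  HahnSeries.embDomainAlgHom (AddMonoidHom.mulLeft (e : ℤ))
    (fun a b h => mul_left_cancel₀ (by exact_mod_cast he) h)
    (fun a b => by
      have h : (0 : ℤ) < e := by omega
      exact mul_le_mul_iff_of_pos_left h)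

/-- The substitution `X ↦ ζ X ^ e` (the identity for `e = 0`). -/
def sig (e : ℕ) (ζ : kkˣ) : LL →ₐ[kk] LL :=
  if h : e = 0 then AlgHom.id kk LL else (dil e h).comp (twist ζ)

lemma dil_coeff (e : ℕ) (he : e ≠ 0) (F : LL) (n : ℤ) :
    (dil e he F).coeff n = if (e : ℤ) ∣ n then F.coeff (n / e) else 0 := by
  have he' : (e : ℤ) ≠ 0 := by exact_mod_cast he
  split_ifs with h
  · obtain ⟨m, rfl⟩ := h
    rw [Int.mul_ediv_cancel_left _ he']
    exact HahnSeries.embDomain_coeff (f := ⟨⟨AddMonoidHom.mulLeft (e : ℤ), _⟩, _⟩)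
  · refine HahnSeries.embDomain_of_notMem_range (f := ⟨⟨AddMonoidHom.mulLeft (e : ℤ), _⟩, _⟩) ?_
    rintro ⟨m, hm⟩
    exact h ⟨m, hm.symm⟩

lemma sig_coeff {e : ℕ} (he : e ≠ 0) (ζ : kkˣ) (F : LL) (n : ℤ) :
    (sig e ζ F).coeff n =
      if (e : ℤ) ∣ n then ((ζ ^ (n / (e : ℤ)) : kkˣ) : kk) * F.coeff (n / e) else 0 := by
  unfold sig
  rw [dif_neg he, AlgHom.comp_apply, dil_coeff]
  split_ifs with h
  · rw [twist_coeff]
  · rfl

lemma sig_coeff_mul {e : ℕ} (he : e ≠ 0) (ζ : kkˣ) (F : LL) (n : ℤ) :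
    (sig e ζ F).coeff (e * n) = ((ζ ^ n : kkˣ) : kk) * F.coeff n := by
  have he' : (e : ℤ) ≠ 0 := by exact_mod_cast he
  rw [sig_coeff he, if_pos (dvd_mul_right _ _), Int.mul_ediv_cancel_left _ he']

lemma sig_sig {e e' : ℕ} (he : e ≠ 0) (he' : e' ≠ 0) (ζ ζ' : kkˣ) (F : LL) :
    sig e ζ (sig e' ζ' F) = sig (e * e') (ζ' * ζ ^ e') F := by
  have h1 : (e : ℤ) ≠ 0 := by exact_mod_cast he
  have h2 : (e' : ℤ) ≠ 0 := by exact_mod_cast he'
  ext n
  rw [sig_coeff (mul_ne_zero he he'), sig_coeff he]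
  split_ifs with h h' h'
  · obtain ⟨m, rfl⟩ := h
    rw [Int.mul_ediv_cancel_left _ h1, sig_coeff he']
    have h3 : (e' : ℤ) ∣ m := by
      push_cast at h'
      exact Int.dvd_of_mul_dvd_mul_left h1 h'
    obtain ⟨l, rfl⟩ := h3
    rw [if_pos (dvd_mul_right _ _), Int.mul_ediv_cancel_left _ h2]
    have h4 : (e : ℤ) * (e' * l) / ((e * e' : ℕ) : ℤ) = l := by
      rw [Nat.cast_mul, ← mul_assoc]
      exact Int.mul_ediv_cancel_left _ (mul_ne_zero h1 h2)
    rw [h4, mul_zpow, ← zpow_natCast ζ e', ← zpow_mul]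
    push_cast
    ring
  · obtain ⟨m, rfl⟩ := h
    rw [Int.mul_ediv_cancel_left _ h1, sig_coeff he', if_neg, mul_zero]
    rintro ⟨l, rfl⟩
    exact h' ⟨l, by push_cast; ring⟩
  · exact absurd ((dvd_mul_right (e : ℤ) e').trans (by push_cast at h'; exact h')) h
  · rfl

lemma sig_one (F : LL) : sig 1 1 F = F := by
  ext n
  rw [sig_coeff one_ne_zero]
  simp

lemma sig_injective (e : ℕ) (ζ : kkˣ) : Function.Injective (sig e ζ) := (sig e ζ).injective

/-- The Laurent series of a sequence. -/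
def ps (f : ℕ → kk) : LL := HahnSeries.ofPowerSeries ℤ kk (PowerSeries.mk f)

lemma ps_coeff_nat (f : ℕ → kk) (n : ℕ) : (ps f).coeff n = f n := by
  unfold ps
  rw [HahnSeries.ofPowerSeries_apply_coeff, PowerSeries.coeff_mk]

lemma ps_coeff_neg (f : ℕ → kk) (n : ℤ) (hn : n < 0) : (ps f).coeff n = 0 := by
  unfold ps
  rw [HahnSeries.ofPowerSeries_apply]
  refine HahnSeries.embDomain_of_notMem_range ?_
  rintro ⟨m, hm⟩
  simp at hm
  omega

lemma ps_coeff (f : ℕ → kk) (n : ℤ) : (ps f).coeff n = if 0 ≤ n then f n.toNat else 0 := by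
  split_ifs with h
  · obtain ⟨m, rfl⟩ := Int.eq_ofNat_of_zero_le h
    rw [ps_coeff_nat]; rfl
  · exact ps_coeff_neg f n (not_le.mp h)

open Classical in
/-- The theta series of the squares `m ^ 2`, `m ≡ c` mod `2 ^ s` (each square once). -/
def th (s : ℕ) (c : ℤ) : LL := ps fun n => if ∃ m : ℤ, m ^ 2 = n ∧ m ≡ c [ZMOD 2 ^ s] then 1 else 0

/-- `Δ` modulo 2, the sum of `X` to the odd squares. -/
def DDk : LL := th 1 1

open Classical in
/-- `η (24 z)` modulo 2, the sum of `X` to the squares prime to 6. -/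
def Ex : LL := ps fun n => if ∃ m : ℤ, m ^ 2 = n ∧ ¬ (2 : ℤ) ∣ m ∧ ¬ (3 : ℤ) ∣ m then 1 else 0

/-- The number of partitions of `n`, as an element of `kk`. -/
def pk (n : ℕ) : kk := (Fintype.card (Nat.Partition n) : kk)

open Classical in
/-- The sum of `p(n) X ^ (24 n - 1)` over `n ≡ a` mod `t`. -/
def Wt (t a : ℕ) : LL := HahnSeries.single (-1 : ℤ) 1 *
  ps fun m => if 24 ∣ m ∧ m / 24 ≡ a [MOD t] then pk (m / 24) else 0

open Classical in
/-- The sum of `p(n) X ^ (24 n - 1)` over `24 n - 1 ≡ γ` mod `2 ^ s`. -/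
def Ug (s : ℕ) (γ : ℤ) : LL := HahnSeries.single (-1 : ℤ) 1 *
  ps fun m => if 24 ∣ m ∧ (m : ℤ) - 1 ≡ γ [ZMOD 2 ^ s] then pk (m / 24) else 0

/-- The field of modular functions modulo 2: the Laurent series algebraic over `kk(Δ)`. -/
def MM : IntermediateField kk LL :=
  (algebraicClosure (IntermediateField.adjoin kk {DDk}) LL).restrictScalars kk

lemma mem_MM {F : LL} : F ∈ MM ↔ IsAlgebraic (IntermediateField.adjoin kk {DDk}) F := by
  unfold MM
  rw [IntermediateField.mem_restrictScalars, mem_algebraicClosure_iff]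

/-- An algebraically closed field containing `MM`, with enough automorphisms. -/
structure Frame where
  A : Type
  [instField : Field A]
  [instAlg : Algebra kk A]
  /-- The embedding of `MM` (only its values on `MM` matter). -/
  cl : LL → A
  cl_add : ∀ F ∈ MM, ∀ G ∈ MM, cl (F + G) = cl F + cl G
  cl_mul : ∀ F ∈ MM, ∀ G ∈ MM, cl (F * G) = cl F * cl G
  cl_alg : ∀ c : kk, cl (algebraMap kk LL c) = algebraMap kk A c
  cl_inj : ∀ F ∈ MM, cl F = 0 → F = 0
  ext_sig : ∀ (e : ℕ) (ζ : kkˣ), Odd e → ∃ τ : A ≃ₐ[kk] A, ∀ F ∈ MM, τ (cl F) = cl (sig e ζ F)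
  conj : ∀ (N : ℕ) (y : LL), Odd N → y ∈ MM →
    (∀ g : A ≃ₐ[kk] A, g (cl (sig N 1 DDk)) = cl (sig N 1 DDk) → g (cl y) = cl y) →
    ∃ s : ℕ, y ^ (2 ^ s) ∈ IntermediateField.adjoin kk {sig N 1 DDk}

attribute [instance] Frame.instField Frame.instAlg

/-- Vertices: `(e, ζ)` stands for the substitution `X ↦ ζ X ^ e`. -/
abbrev Vx : Type := ℕ × kkˣ

/-- Neighbours for the prime `p`. -/
def Nb (p : ℕ) (v u : Vx) : Prop :=
  (u.1 = p * v.1 ∧ u.2 = v.2 ^ p) ∨ (v.1 = p * u.1 ∧ u.2 ^ p = v.2)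

/-- The value of `Δ` at a vertex. -/
def Frame.D (Φ : Frame) (v : Vx) : Φ.A := Φ.cl (sig v.1 v.2 DDk)

/-- The values of the theta series at a vertex. -/
def Frame.X (Φ : Frame) (v : Vx) (s : ℕ) (c : ℤ) : Φ.A := Φ.cl (sig v.1 v.2 (th s c))

/-- `T` extends the translation `X ↦ ω X`. -/
def Frame.IsT (Φ : Frame) (ω : kkˣ) (T : Φ.A ≃ₐ[kk] Φ.A) : Prop :=
  ∀ F ∈ MM, T (Φ.cl F) = Φ.cl (sig 1 ω F)

/-- The normal closure of the translations in the stabiliser of the base vertex `(N, 1)`. -/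
def Frame.NS (Φ : Frame) (N : ℕ) : Subgroup (Φ.A ≃ₐ[kk] Φ.A) :=
  Subgroup.closure {h | ∃ (g T : Φ.A ≃ₐ[kk] Φ.A) (ω : kkˣ), g (Φ.D (N, 1)) = Φ.D (N, 1) ∧
    ω ^ N = 1 ∧ Φ.IsT ω T ∧ h = g * T * g⁻¹}

/-- `Ty N l v`: the vertex `v` is reached from `(N, 1)` by a path of type `l`. -/
inductive Ty (N : ℕ) : List ℕ → Vx → Prop
  | nil : Ty N [] (N, 1)
  | cons {p : ℕ} {l : List ℕ} {v u : Vx} : p.Prime → p ≠ 2 → Ty N l v → Nb p v u → Ty N (p :: l) u

/-- The inclusion of polynomials in Laurent series. -/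
def incl : Polynomial kk →+* LL :=
  (HahnSeries.ofPowerSeries ℤ kk).comp Polynomial.coeToPowerSeries.ringHom

/-- The value of a polynomial in two variables at `(X, Δ)`; the outer variable is `Δ`. -/
def ev (P : Polynomial (Polynomial kk)) : LL := P.eval₂ incl DDk

/-- The generating series of `p(t n + r)` modulo 2. -/
def Pr (t r : ℕ) : PowerSeries (ZMod 2) :=
  PowerSeries.mk fun n => (Fintype.card (Nat.Partition (t * n + r)) : ZMod 2)

/-- `b`-automatic sequences: the `b`-kernel is finite. -/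
def IsAutomatic (b : ℕ) (r : ℕ → ZMod 2) : Prop :=
  {f : ℕ → ZMod 2 | ∃ e j : ℕ, j < b ^ e ∧ f = fun n => r (b ^ e * n + j)}.Finite

end Pool.Agent.helper7.IG
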