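import Mathlib
import Pool.Agent.helper7.IG.Defs
import Pool.Agent.helper12.PE.Integral
import Pool.Agent.helper12.PE.Hecke

/-!
# IG: statements, first wave
-/

set_option autoImplicit false

open Polynomial UpperHalfPlane
open scoped MatrixGroups

noncomputable section

namespace Pool.Agent.helper7.IG

/-- Reduction to `LL` of power series over `ZMod 2`. -/
def im2 : PowerSeries (ZMod 2) →+* LL :=
  (HahnSeries.ofPowerSeries ℤ kk).comp (PowerSeries.map (algebraMap (ZMod 2) kk))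

/-- The variable. -/
def xx : LL := HahnSeries.single (1 : ℤ) (1 : kk)

/-- Module F1. -/
def F1_stmt : Prop :=
  im2 (PowerSeries.X * Pool.Agent.helper81.EE ^ 24) = DDk ∧
  Ex = xx * sig 24 1 (im2 Pool.Agent.helper81.EE) ∧
  Wt 1 0 * Ex = 1 ∧ Ex ^ 3 = sig 3 1 DDk

/-- Module R0. -/
def R0_stmt : Prop := ∀ s : ℕ, 2 ≤ s → ∀ c : ℤ, Odd c →
  th (s + 1) c + th (s + 1) (c + 2 ^ s) = th s c

/-- Module R1. -/
def R1_stmt : Prop := ∀ s : ℕ, 2 ≤ s → ∀ c : ℤ, Odd c →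
  th (s + 1) c * th (s + 1) (c + 2 ^ s) =
    DDk ^ (2 * 4 ^ (s - 1)) * (th s (c + 2 ^ (s - 1))) ^ 2

/-- Module R2. -/
def R2_stmt : Prop := ∀ s : ℕ, 2 ≤ s → ∀ c : ℤ, Odd c →
  th (s + 1) c * th (s + 1) (3 * c) =
    (th s c) ^ 8 * (th (s + 1) c) ^ 2 +
      (th s (c + 2 ^ (s - 1))) ^ 8 * (th (s + 1) (c + 2 ^ s)) ^ 2

/-- Module R3. -/
def R3_stmt : Prop := ∀ (e s : ℕ) (ζ ω : kkˣ) (c c' : ℤ), e ≠ 0 → 2 ≤ s → Odd c →
  3 * c' ≡ c [ZMOD 2 ^ s] → IsPrimitiveRoot ω 3 →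
  (∑ j ∈ Finset.range 3, sig e (ζ * ω ^ j) (th s c)) + sig (9 * e) (ζ ^ 9) (th s c') = 0

/-- Module R3U. -/
def R3U_stmt : Prop := ∀ (e s : ℕ) (ζ ω : kkˣ) (c : ℕ → ℤ) (c' : ℤ), e ≠ 0 → 2 ≤ s →
  (∀ j, Odd (c j)) → Odd c' → IsPrimitiveRoot ω 3 →
  (∑ j ∈ Finset.range 3, sig e (ζ * ω ^ j) (th s (c j))) + sig (9 * e) (ζ ^ 9) (th s c') = 0 →
  (c 1 ≡ c 0 [ZMOD 2 ^ s] ∨ c 1 ≡ - c 0 [ZMOD 2 ^ s]) ∧
  (c 2 ≡ c 0 [ZMOD 2 ^ s] ∨ c 2 ≡ - c 0 [ZMOD 2 ^ s]) ∧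
  (c 0 ≡ 3 * c' [ZMOD 2 ^ s] ∨ c 0 ≡ - (3 * c') [ZMOD 2 ^ s])

/-- Module SQ. -/
def SQ_stmt : Prop := ∀ (n : ℕ) (u : ℤ), u ≡ 1 [ZMOD 8] → ∃ d : ℤ, Odd d ∧ d ^ 2 ≡ u [ZMOD 2 ^ n]

/-- Module P3: every odd number is `± 3 ^ i` modulo `2 ^ s`. -/
def P3_stmt : Prop := ∀ (s : ℕ) (c : ℤ), Odd c →
  ∃ i : ℕ, c ≡ 3 ^ i [ZMOD 2 ^ s] ∨ c ≡ - 3 ^ i [ZMOD 2 ^ s]

/-- Multiplication by `F` on power series in `x`, over power series in `x ^ p`,
in the basis `1, x, ..., x ^ (p - 1)`. -/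
def mulMat {R : Type} [CommRing R] (p : ℕ) (F : PowerSeries R) :
    Matrix (Fin p) (Fin p) (PowerSeries R) :=
  Matrix.of fun k i =>
    if (i : ℕ) ≤ (k : ℕ) then
      PowerSeries.mk fun n => PowerSeries.coeff (p * n + ((k : ℕ) - (i : ℕ))) F
    else
      PowerSeries.X * PowerSeries.mk fun n => PowerSeries.coeff (p * n + (p + (k : ℕ) - (i : ℕ))) F

/-- Module MA. -/
def MA_stmt : Prop :=
  (∀ (R S : Type) [CommRing R] [CommRing S] (f : R →+* S) (p : ℕ) (F : PowerSeries R),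
    (mulMat p F).charpoly.map (PowerSeries.map f) = (mulMat p (PowerSeries.map f F)).charpoly) ∧
  (∀ (K : Type) [Field K] (p : ℕ) (hp : p ≠ 0) (ω : K) (F : PowerSeries K),
    IsPrimitiveRoot ω p →
    (mulMat p F).charpoly.map (PowerSeries.expand p hp).toRingHom =
      ∏ j ∈ Finset.range p, (X - C (PowerSeries.rescale (ω ^ j) F)))

/-- The integral expansion of the discriminant. -/
def DZ : PowerSeries ℤ := PowerSeries.X * (PowerSeries.pentagonalSeries ℤ) ^ 24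

/-- The integral modular equation. -/
def PhiZ (p : ℕ) (hp : p ≠ 0) : Polynomial (PowerSeries ℤ) :=
  (mulMat p DZ).charpoly * (X - C ((p : PowerSeries ℤ) ^ 12 * PowerSeries.expand p hp DZ))

/-- The discriminant as a function on the complex plane (only the upper half plane matters). -/
def dC (z : ℂ) : ℂ := ModularForm.discriminant (ofComplex z)

/-- The coefficients of the modular equation as functions. -/
def GG (p i : ℕ) (z : ℂ) : ℂ :=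
  ((∏ b ∈ Finset.range p, (X - C (dC ((z + b) / p)))) *
    (X - C ((p : ℂ) ^ 12 * dC (p * z)))).coeff (p + 1 - i)

/-- Module MB1: building a modular form of level one from its transformation laws. -/
def MB1_stmt : Prop := ∀ (k : ℕ) (G : ℂ → ℂ) (a : ℕ → ℂ),
  DifferentiableOn ℂ G {z | 0 < z.im} →
  (∀ z : ℂ, 0 < z.im → G (z + 1) = G z) →
  (∀ z : ℂ, 0 < z.im → G (-1 / z) = z ^ k * G z) →
  (∀ z : ℂ, 0 < z.im → HasSum (fun n => a n * Function.Periodic.qParam 1 z ^ n) (G z)) →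
  ∃ F : ModularForm 𝒮ℒ (k : ℤ), ∀ n : ℕ, (qExpansion 1 F).coeff n = a n

/-- Module MB2: transformation laws. -/
def MB2_stmt : Prop := ∀ (p i : ℕ), p.Prime → i ≤ p + 1 →
  DifferentiableOn ℂ (GG p i) {z | 0 < z.im} ∧
  (∀ z : ℂ, 0 < z.im → GG p i (z + 1) = GG p i z) ∧
  (∀ z : ℂ, 0 < z.im → GG p i (-1 / z) = z ^ (12 * i) * GG p i z)

/-- Module MB3: expansions. -/
def MB3_stmt : Prop := ∀ (p i : ℕ) (hp : p ≠ 0), p.Prime → i ≤ p + 1 →
  ∀ z : ℂ, 0 < z.im →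
    HasSum (fun n => (((PowerSeries.coeff n ((PhiZ p hp).coeff (p + 1 - i)) : ℤ)) : ℂ) *
      Function.Periodic.qParam 1 z ^ n) (GG p i z)

/-- Module PHI3. -/
def PHI3_stmt : Prop := DDk ^ 4 + (sig 3 1 DDk) ^ 4 = DDk * sig 3 1 DDk

/-- Module TC: `X` and `Δ` are algebraically independent. -/
def TC_stmt : Prop := ∀ P : Polynomial (Polynomial kk), P ≠ 0 → ev P ≠ 0

/-- Module HEN: Hensel's lemma with a derivative of finite order. -/
def HEN_stmt : Prop := ∀ (f : Polynomial (PowerSeries kk)) (y0 : PowerSeries kk) (δ M : ℕ),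
  2 * δ < M → PowerSeries.X ^ M ∣ f.eval y0 →
  ¬ (PowerSeries.X ^ (δ + 1) ∣ f.derivative.eval y0) →
  ∃ y : PowerSeries kk, f.eval y = 0 ∧ PowerSeries.X ^ (M - δ) ∣ y - y0

/-- Module LIO: the order of an eigenvalue of a matrix of polynomials of bounded degree. -/
def LIO_stmt : Prop := ∀ (m D : ℕ) (N : Matrix (Fin m) (Fin m) (Polynomial kk))
  (w : Fin m → PowerSeries kk) (θ : PowerSeries kk),
  (∀ i j, (N i j).natDegree ≤ D) → w ≠ 0 →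
  (N.map (fun P => (P : PowerSeries kk))).mulVec w = θ • w → θ ≠ 0 →
  ¬ (PowerSeries.X ^ (m * D + 1) ∣ θ)

/-- Module WT: `Wt` as a combination of twists of `Ug`. -/
def WT_stmt : Prop := ∀ (e t' a L : ℕ) (ζ : kkˣ), Odd t' → L ≠ 0 → IsPrimitiveRoot ζ (3 * t') →
  sig L 1 (Wt (2 ^ e * t') a) = ∑ i ∈ Finset.range t',
    algebraMap kk LL ((ζ ^ (-((i : ℤ) * (24 * (a : ℤ) - 1))) : kkˣ) : kk) *
      sig L (ζ ^ i) (Ug (e + 3) (24 * (a : ℤ) - 1))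

/-- Representatives of the odd classes modulo `2 ^ s` up to sign. -/
def reps (s : ℕ) : Finset ℕ := (Finset.range (2 ^ (s - 1))).filter (fun c => c % 2 = 1)

open Classical in
/-- Module CO1: the components of `η ^ (-1)` as polynomials in the theta series. -/
def CO1_stmt : Prop := ∀ (s j : ℕ) (γ : ℤ), 2 ≤ s → s + 1 ≤ 2 * j →
  Ug (s + 1) γ * Ex ^ (4 ^ j) =
    ∑ c ∈ (Fintype.piFinset fun _ : Fin j => reps s).filter
      (fun c => 3 * ∑ i : Fin j, (4 : ℤ) ^ (i : ℕ) * (c i : ℤ) ^ 2 ≡ γ [ZMOD 2 ^ (s + 1)]),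
      ∏ i : Fin j, (sig 3 1 (th s (c i))) ^ (4 ^ (i : ℕ))

/-- Module NM: norms from the field of modular functions. -/
def NM_stmt : Prop := ∀ (ι : Type) [Fintype ι] (W : ι → LL), (∀ i, W i ∈ MM) →
  ∃ n C : ℕ, ∀ (H : ℕ) (h : ι → Polynomial kk), (∀ i, (h i).natDegree ≤ H) →
    (∑ i, incl (h i) * W i) ≠ 0 →
    ∃ P : Polynomial (Polynomial kk), P ≠ 0 ∧ P.natDegree ≤ n ∧
      (∀ k, (P.coeff k).natDegree ≤ n * H) ∧
      (∑ i, incl (h i) * W i).order ≤ (ev P).order + C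

/-- Module IND: `X` is transcendental over the field of modular functions. -/
def IND_stmt : Prop := ∀ (n : ℕ) (b : ℕ → LL), (∀ k, b k ∈ MM) →
  (∑ k ∈ Finset.range n, xx ^ k * b k) = 0 → ∀ k < n, b k = 0

/-- Module RES: resultants of bounded degree. -/
def RES_stmt : Prop := ∀ (n H : ℕ) (P : Polynomial (Polynomial kk)), P.natDegree ≤ n →
  (∀ k, (P.coeff k).natDegree ≤ H) → P.derivative ≠ 0 →
  Irreducible (P.map (algebraMap (Polynomial kk) (FractionRing (Polynomial kk)))) →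
  ∃ (A B : Polynomial (Polynomial kk)) (R : Polynomial kk),
    R ≠ 0 ∧ R.natDegree ≤ 2 * n * H ∧ A * P + B * P.derivative = C R

/-- Module ZS: the zero estimate in the separable case. -/
def ZS_stmt : Prop := ∀ n : ℕ, ∃ K : ℕ, ∀ (H : ℕ) (P A B : Polynomial (Polynomial kk))
  (R : Polynomial kk), P ≠ 0 → P.natDegree ≤ n → (∀ k, (P.coeff k).natDegree ≤ H) →
  R ≠ 0 → R.natDegree ≤ 2 * n * H → A * P + B * P.derivative = C R →
  (ev P).order ≤ K * (H + 1)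

/-- Module ZE: the zero estimate. -/
def ZE_stmt : Prop := ∀ n : ℕ, ∃ K : ℕ, ∀ (H : ℕ) (P : Polynomial (Polynomial kk)), P ≠ 0 →
  P.natDegree ≤ n → (∀ k, (P.coeff k).natDegree ≤ H) → (ev P).order ≤ K * (H + 1)

/-- Module MEAS: the measure of linear independence. -/
def MEAS_stmt : Prop := ∀ t : ℕ, 1 ≤ t → ∃ K : ℕ, ∀ (d : ℕ) (A : ℕ → Polynomial (ZMod 2))
  (B : Polynomial (ZMod 2)), (∀ r, (A r).natDegree ≤ d) → B.natDegree ≤ d →
  (∃ r < t, A r ≠ 0) → ∃ n ≤ K * (d + 1),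
    PowerSeries.coeff n
      ((∑ r ∈ Finset.range t, ((A r : Polynomial (ZMod 2)) : PowerSeries (ZMod 2)) * Pr t r) -
        ((B : Polynomial (ZMod 2)) : PowerSeries (ZMod 2))) ≠ 0

/-- Module GAP: the final theorem. -/
def GAP_stmt : Prop := ∀ (b : ℕ) (r : ℕ → ZMod 2), 2 ≤ b → IsAutomatic b r →
  ∀ (H : Finset ℕ), H.Nonempty → ∀ t a : ℕ, 1 ≤ t → ∃ K : ℕ, ∀ x : ℕ, 1 ≤ x →
    ∃ n : ℕ, x < n ∧ n ≤ K * x ∧ n ≡ a [MOD t] ∧
      (∑ h ∈ H.filter (fun h => h ≤ n), (Fintype.card (Nat.Partition (n - h)) : ZMod 2)) ≠ r n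

/-- Module PSI: the modular equation modulo 2. -/
def PSI_stmt : Prop := ∀ p : ℕ, p.Prime → p ≠ 2 → ∃ Ψ : Polynomial (Polynomial kk),
  Ψ.Monic ∧ Ψ.natDegree = p + 1 ∧ (∀ i, (Ψ.coeff i).natDegree ≤ p + 1 - i) ∧
  ∀ ω : kkˣ, IsPrimitiveRoot ω p →
    Ψ.map (Polynomial.aeval (R := kk) (sig p 1 DDk)).toRingHom =
      (X - C (sig (p * p) 1 DDk)) * ∏ j ∈ Finset.range p, (X - C (sig 1 (ω ^ j) DDk))

/-- Radu's theorem (to be proved in wave 2). -/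
def RA_stmt : Prop := ∀ t a : ℕ, 1 ≤ t → Wt t a ≠ 0

/-- Module WMM. -/
def WMM_stmt : Prop := ∀ t a : ℕ, 1 ≤ t → Wt t a ∈ MM

end Pool.Agent.helper7.IG
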