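import Mathlib
import Pool.Agent.helper7.IG.Stmt1

/-!
# IG: statements, second wave (automorphisms and transitivity)
-/

set_option autoImplicit false

open Polynomial

noncomputable section

namespace Pool.Agent.helper7.IG

/-- Module ME: the substitutions `X ↦ ζ X ^ e`, `e` odd, preserve the modular functions. -/
def ME_stmt : Prop := ∀ (e : ℕ) (ζ : kkˣ) (F : LL), Odd e → F ∈ MM → sig e ζ F ∈ MM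

/-- Module THM: the theta series are modular functions. -/
def THM_stmt : Prop := ∀ (s : ℕ) (c : ℤ), 2 ≤ s → Odd c → th s c ∈ MM

/-- Module UGM. -/
def UGM_stmt : Prop := ∀ (s : ℕ) (γ : ℤ), 2 ≤ s → Ug (s + 1) γ ∈ MM

/-- Module FR. -/
def FR_stmt : Prop := Nonempty Frame

/-- Module DI: `D` is injective on odd vertices. -/
def DI_stmt : Prop := ∀ (Φ : Frame) (v v' : Vx), Odd v.1 → Odd v'.1 → Φ.D v = Φ.D v' → v = v'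

/-- Module NB: automorphisms preserve neighbours. -/
def NB_stmt : Prop := ∀ (Φ : Frame) (g : Φ.A ≃ₐ[kk] Φ.A) (v v' : Vx) (p : ℕ), p.Prime → p ≠ 2 →
  Odd v.1 → Odd v'.1 → p ∣ v.1 → p ∣ v'.1 → g (Φ.D v) = Φ.D v' →
  ∀ u, Nb p v u → ∃ u', Nb p v' u' ∧ g (Φ.D u) = Φ.D u'

/-- Module NF: automorphisms that fix `(N, 1)` and move `(p N, 1)`. -/
def NF_stmt : Prop := ∀ (Φ : Frame) (N p : ℕ), Odd N → p.Prime → p ≠ 2 →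
  ∃ γ : Φ.A ≃ₐ[kk] Φ.A, γ (Φ.D (N, 1)) = Φ.D (N, 1) ∧ γ (Φ.D (p * N, 1)) ≠ Φ.D (p * N, 1)

/-- Module TY: paths. -/
def TY_stmt : Prop :=
  (∀ (N : ℕ) (l : List ℕ) (v : Vx), Odd N → Ty N l v →
    Odd v.1 ∧ N ∣ v.1 * l.prod ∧ v.1 ≤ N * l.prod ∧ (v.1 = N * l.prod → v.2 = 1)) ∧
  (∀ (N m : ℕ), Odd N → m ∣ N → ∃ l : List ℕ, l.prod = m ∧
    ∀ η : kkˣ, η ^ m = 1 → Ty N l (N / m, η)) ∧
  (∀ (N m : ℕ), Odd N → Odd m → ∃ l : List ℕ, l.prod = m ∧ Ty N l (N * m, 1))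

/-- Module TYM: automorphisms fixing `(N, 1)` preserve the type of a vertex. -/
def TYM_stmt : Prop := ∀ (Φ : Frame) (N : ℕ) (g : Φ.A ≃ₐ[kk] Φ.A) (l : List ℕ) (v : Vx),
  Odd N → l.prod ∣ N → g (Φ.D (N, 1)) = Φ.D (N, 1) → Ty N l v →
  ∃ v', Ty N l v' ∧ g (Φ.D v) = Φ.D v'

/-- Module NSF: the group `NS` fixes the base vertex. -/
def NSF_stmt : Prop := ∀ (Φ : Frame) (N : ℕ) (n : Φ.A ≃ₐ[kk] Φ.A), Odd N → n ∈ Φ.NS N →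
  n (Φ.D (N, 1)) = Φ.D (N, 1)

/-- Module TRL: local transitivity. -/
def TRL_stmt : Prop := ∀ (Φ : Frame) (N m p : ℕ) (w₁ w₂ : Vx), Odd N → p.Prime → p ≠ 2 →
  (m * p) ^ 2 ∣ N → Nb p (N / m, 1) w₁ → Nb p (N / m, 1) w₂ →
  (p ∣ m → w₁ ≠ (p * (N / m), 1) ∧ w₂ ≠ (p * (N / m), 1)) →
  ∃ n ∈ Φ.NS N, n (Φ.D (N / m, 1)) = Φ.D (N / m, 1) ∧ n (Φ.D w₂) = Φ.D w₁

/-- Module TR1: transitivity. -/
def TR1_stmt : Prop := ∀ (Φ : Frame) (N m : ℕ), Odd N → m ^ 2 ∣ N →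
  ∃ n ∈ Φ.NS N, n (Φ.D (N / m, 1)) = Φ.D (N * m, 1)

/-- Module TR2: transitivity. -/
def TR2_stmt : Prop := ∀ (Φ : Frame) (N m : ℕ) (g : Φ.A ≃ₐ[kk] Φ.A), Odd N → m ^ 2 ∣ N →
  g (Φ.D (N, 1)) = Φ.D (N, 1) → ∃ n ∈ Φ.NS N, n (g (Φ.D (N / m, 1))) = Φ.D (N / m, 1)

/-- Module UD: automorphisms act on the theta series through multipliers. -/
def UD_stmt : Prop := ∀ (Φ : Frame) (g : Φ.A ≃ₐ[kk] Φ.A) (v v' : Vx), Odd v.1 → Odd v'.1 →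
  g (Φ.D v) = Φ.D v' → ∀ s : ℕ, 2 ≤ s → ∃ d : ℤ, Odd d ∧
    ∀ c : ℤ, Odd c → g (Φ.X v s c) = Φ.X v' s (d * c)

/-- Module NSX: the group `NS` acts trivially on the theta series of the base vertex. -/
def NSX_stmt : Prop := ∀ (Φ : Frame) (N : ℕ) (n : Φ.A ≃ₐ[kk] Φ.A), Odd N → n ∈ Φ.NS N →
  ∀ (s : ℕ) (c : ℤ), 2 ≤ s → Odd c → n (Φ.X (N, 1) s c) = Φ.X (N, 1) s c

/-- Module DM: an automorphism with multiplier `3`. -/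
def DM_stmt : Prop := ∀ (Φ : Frame) (N : ℕ), Odd N → 3 ∣ N →
  ∃ h : Φ.A ≃ₐ[kk] Φ.A, h (Φ.D (N, 1)) = Φ.D (N, 1) ∧
    ∀ (s : ℕ) (c : ℤ), 2 ≤ s → Odd c → h (Φ.X (N, 1) s c) = Φ.X (N, 1) s (3 * c)

/-- Module PG. -/
def PG_stmt : Prop := ∀ (Φ : Frame) (N t s : ℕ) (δ : ℤ), Odd N → 3 ∣ N → t ^ 2 ∣ N → 2 ≤ s →
  Odd δ → ∃ g : Φ.A ≃ₐ[kk] Φ.A, g (Φ.D (N, 1)) = Φ.D (N, 1) ∧
    g (Φ.D (N / t, 1)) = Φ.D (N * t, 1) ∧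
    ∀ c : ℤ, Odd c → g (Φ.X (N / t, 1) s c) = Φ.X (N * t, 1) s (δ * c)

/-- Module CO: the action on the components of `η ^ (-1)`. -/
def CO_stmt : Prop := ∀ (Φ : Frame) (e e' s : ℕ) (ζ ζ' : kkˣ) (g : Φ.A ≃ₐ[kk] Φ.A) (d : ℤ),
  Odd e → Odd e' → 2 ≤ s → Odd d → g (Φ.D (3 * e, ζ ^ 3)) = Φ.D (3 * e', ζ' ^ 3) →
  (∀ c : ℤ, Odd c → g (Φ.X (3 * e, ζ ^ 3) s c) = Φ.X (3 * e', ζ' ^ 3) s (d * c)) →
  ∃ θ : kk, θ ≠ 0 ∧ ∀ γ : ℤ, g (Φ.cl (sig e ζ (Ug (s + 1) γ))) =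
    algebraMap kk Φ.A θ * Φ.cl (sig e' ζ' (Ug (s + 1) (d ^ 2 * γ)))

end Pool.Agent.helper7.IG
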