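import Mathlib
import Pool.Agent.helper7.IG.Stmt2

/-!
# IG: basic lemmas on theta series, `MM` and frames
-/

set_option autoImplicit false

open Polynomial

noncomputable section

namespace Pool.Agent.helper7.IG

instance : CharP kk 2 := charP_of_injective_algebraMap (algebraMap (ZMod 2) kk).injective 2

instance : CharP LL 2 := charP_of_injective_algebraMap (algebraMap kk LL).injective 2

lemma th_coeff (s : ℕ) (c : ℤ) (n : ℤ) : (th s c).coeff n =
    (open Classical in if ∃ m : ℤ, m ^ 2 = n ∧ m ≡ c [ZMOD 2 ^ s] then 1 else 0) := by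
  classical
  unfold th
  rw [ps_coeff]
  by_cases h : 0 ≤ n
  · rw [if_pos h]
    have h2 : ((n.toNat : ℕ) : ℤ) = n := Int.toNat_of_nonneg h
    rw [h2]
  · rw [if_neg h, if_neg]
    rintro ⟨m, hm, _⟩
    exact h (hm ▸ sq_nonneg m)

lemma DDk_coeff (n : ℤ) : DDk.coeff n =
    (open Classical in if ∃ m : ℤ, m ^ 2 = n ∧ Odd m then 1 else 0) := by
  classical
  unfold DDk
  rw [th_coeff]
  have h : ∀ m : ℤ, m ≡ 1 [ZMOD 2 ^ 1] ↔ Odd m := by
    intro m
    rw [Int.odd_iff, pow_one]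
    exact Iff.rfl
  simp only [h]

lemma th_congr (s : ℕ) {c c' : ℤ} (h : c ≡ c' [ZMOD 2 ^ s]) : th s c = th s c' := by
  classical
  ext n
  rw [th_coeff, th_coeff]
  have h2 : ∀ m : ℤ, m ≡ c [ZMOD 2 ^ s] ↔ m ≡ c' [ZMOD 2 ^ s] :=
    fun m => ⟨fun hm => hm.trans h, fun hm => hm.trans h.symm⟩
  simp only [h2]

lemma th_neg (s : ℕ) (c : ℤ) : th s (-c) = th s c := by
  classical
  ext n
  rw [th_coeff, th_coeff]
  have h2 : (∃ m : ℤ, m ^ 2 = n ∧ m ≡ -c [ZMOD 2 ^ s]) ↔ ∃ m : ℤ, m ^ 2 = n ∧ m ≡ c [ZMOD 2 ^ s] := by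
    constructor
    · rintro ⟨m, hm, h⟩
      exact ⟨-m, by rw [neg_sq, hm], by simpa using h.neg⟩
    · rintro ⟨m, hm, h⟩
      exact ⟨-m, by rw [neg_sq, hm], h.neg⟩
  simp only [h2]

lemma th_two {c : ℤ} (hc : Odd c) : th 2 c = DDk := by
  classical
  ext n
  rw [th_coeff, DDk_coeff]
  have h2 : (∃ m : ℤ, m ^ 2 = n ∧ m ≡ c [ZMOD 2 ^ 2]) ↔ ∃ m : ℤ, m ^ 2 = n ∧ Odd m := by
    constructor
    · rintro ⟨m, hm, h⟩
      refine ⟨m, hm, ?_⟩
      rw [Int.odd_iff] at hc ⊢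
      unfold Int.ModEq at h
      omega
    · rintro ⟨m, hm, h⟩
      rw [Int.odd_iff] at hc h
      by_cases hmc : m % 4 = c % 4
      · exact ⟨m, hm, hmc⟩
      · refine ⟨-m, by rw [neg_sq, hm], ?_⟩
        change (-m) % 4 = c % 4
        omega
  simp only [h2]

lemma th_ne_zero (s : ℕ) (c : ℤ) : th s c ≠ 0 := by
  intro h
  have h2 := congrArg (fun F => HahnSeries.coeff F (c ^ 2)) h
  simp only [HahnSeries.coeff_zero] at h2
  rw [th_coeff, if_pos ⟨c, rfl, Int.ModEq.refl c⟩] at h2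
  exact one_ne_zero h2

/-- Coefficients of a substitution applied to a theta series. -/
lemma sig_th_coeff {e : ℕ} (he : e ≠ 0) (ζ : kkˣ) (s : ℕ) (c : ℤ) (n : ℤ) :
    (sig e ζ (th s c)).coeff (e * n) =
      (open Classical in
        if ∃ m : ℤ, m ^ 2 = n ∧ m ≡ c [ZMOD 2 ^ s] then ((ζ ^ n : kkˣ) : kk) else 0) := by
  classical
  rw [sig_coeff_mul he, th_coeff]
  split_ifs
  · rw [mul_one]
  · rw [mul_zero]

lemma sig_coeff_of_not_dvd {e : ℕ} (he : e ≠ 0) (ζ : kkˣ) (F : LL) (n : ℤ) (h : ¬ (e : ℤ) ∣ n) :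
    (sig e ζ F).coeff n = 0 := by
  rw [sig_coeff he, if_neg h]

lemma sig_coeff_neg_of {e : ℕ} (he : e ≠ 0) (ζ : kkˣ) (F : LL) (hF : ∀ n < 0, F.coeff n = 0)
    (n : ℤ) (hn : n < 0) : (sig e ζ F).coeff n = 0 := by
  rw [sig_coeff he]
  split_ifs with h
  · rw [hF, mul_zero]
    exact Int.ediv_neg_of_neg_of_pos hn (by omega)
  · rfl

lemma im2_coeff_nat (F : PowerSeries (ZMod 2)) (n : ℕ) :
    (im2 F).coeff n = algebraMap (ZMod 2) kk (PowerSeries.coeff n F) := by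
  unfold im2
  rw [RingHom.comp_apply, HahnSeries.ofPowerSeries_apply_coeff, PowerSeries.coeff_map]

lemma im2_coeff_neg (F : PowerSeries (ZMod 2)) (n : ℤ) (hn : n < 0) : (im2 F).coeff n = 0 := by
  unfold im2
  rw [RingHom.comp_apply, HahnSeries.ofPowerSeries_apply]
  refine HahnSeries.embDomain_of_notMem_range ?_
  rintro ⟨m, hm⟩
  simp at hm
  omega

/-- Every element of `kk` is a root of unity of odd order. -/
lemma exists_odd_order (ζ : kkˣ) : ∃ n : ℕ, Odd n ∧ ζ ^ n = 1 := by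
  have hint : IsAlgebraic (ZMod 2) (ζ : kk) := Algebra.IsAlgebraic.isAlgebraic _
  have hfin : FiniteDimensional (ZMod 2) (IntermediateField.adjoin (ZMod 2) {(ζ : kk)}) :=
    IntermediateField.adjoin.finiteDimensional hint.isIntegral
  have hF : Finite (IntermediateField.adjoin (ZMod 2) {(ζ : kk)}) :=
    Module.finite_of_finite (ZMod 2)
  have := Fintype.ofFinite (IntermediateField.adjoin (ZMod 2) {(ζ : kk)})
  set K := IntermediateField.adjoin (ZMod 2) {(ζ : kk)}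
  set z : K := ⟨(ζ : kk), IntermediateField.mem_adjoin_simple_self _ _⟩ with hz
  have hz0 : z ≠ 0 := by
    intro h
    have h2 := congrArg Subtype.val h
    exact ζ.ne_zero h2
  have h1 : z ^ (Fintype.card K - 1) = 1 := FiniteField.pow_card_sub_one_eq_one z hz0
  refine ⟨Fintype.card K - 1, ?_, ?_⟩
  · obtain ⟨n, _, hn⟩ := FiniteField.card K 2
    rw [hn]
    have hn0 : (n : ℕ) ≠ 0 := n.ne_zero
    have h2 : 2 ∣ 2 ^ (n : ℕ) := dvd_pow_self 2 hn0
    have h3 : 0 < 2 ^ (n : ℕ) := by positivity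
    rw [Nat.odd_iff]
    omega
  · ext
    have h2 := congrArg Subtype.val h1
    push_cast
    exact h2

/-- Roots of odd (any nonzero) order exist. -/
lemma exists_unit_root (n : ℕ) (hn : n ≠ 0) (ζ : kkˣ) : ∃ ξ : kkˣ, ξ ^ n = ζ := by
  obtain ⟨x, hx⟩ := IsAlgClosed.exists_pow_nat_eq (ζ : kk) (Nat.pos_of_ne_zero hn)
  have hx0 : x ≠ 0 := by
    rintro rfl
    rw [zero_pow hn] at hx
    exact ζ.ne_zero hx.symm
  refine ⟨Units.mk0 x hx0, ?_⟩
  ext
  push_cast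
  exact hx

/-- Primitive roots of unity of odd order exist. -/
lemma exists_primitive (n : ℕ) (hn : Odd n) : ∃ ω : kkˣ, IsPrimitiveRoot ω n := by
  have hn0 : n ≠ 0 := by rintro rfl; exact absurd hn (by decide)
  have : NeZero (n : kk) := by
    refine ⟨?_⟩
    rw [Ne, CharP.cast_eq_zero_iff kk 2]
    intro h
    rw [Nat.odd_iff] at hn
    omega
  have : NeZero n := ⟨hn0⟩
  obtain ⟨ζ, hζ⟩ := HasEnoughRootsOfUnity.exists_primitiveRoot kk n
  have hu : IsUnit ζ := hζ.isUnit hn0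
  refine ⟨hu.unit, ?_⟩
  rw [← IsPrimitiveRoot.coe_units_iff]
  exact hζ

/-! ### The field `MM` -/

lemma DDk_mem : DDk ∈ MM := by
  rw [mem_MM]
  have h : DDk ∈ IntermediateField.adjoin kk {DDk} := IntermediateField.mem_adjoin_simple_self _ _
  have := isAlgebraic_algebraMap (R := IntermediateField.adjoin kk {DDk}) (A := LL) ⟨DDk, h⟩
  exact this

lemma C_mem (c : kk) : algebraMap kk LL c ∈ MM := MM.algebraMap_mem c

/-- `MM` is algebraically closed in `LL`. -/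
lemma mem_MM_of_isAlgebraic {F : LL} (h : IsAlgebraic MM F) : F ∈ MM := by
  rw [mem_MM]
  have h2 : Algebra.IsAlgebraic (IntermediateField.adjoin kk {DDk})
      (algebraicClosure (IntermediateField.adjoin kk {DDk}) LL) := inferInstance
  have h3 : IsAlgebraic (algebraicClosure (IntermediateField.adjoin kk {DDk}) LL) F := h
  exact IsAlgebraic.restrictScalars (IntermediateField.adjoin kk {DDk}) h3

/-- A root of a nonzero polynomial with coefficients in `MM` lies in `MM`. -/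
lemma mem_MM_of_root {F : LL} (P : Polynomial LL) (hP : P ≠ 0) (hc : ∀ i, P.coeff i ∈ MM)
    (h : P.eval F = 0) : F ∈ MM := by
  apply mem_MM_of_isAlgebraic
  have hl : P ∈ Polynomial.lifts (algebraMap MM LL) := by
    rw [Polynomial.lifts_iff_coeff_lifts]
    intro n
    exact ⟨⟨P.coeff n, hc n⟩, rfl⟩
  obtain ⟨Q, hQ⟩ := (Polynomial.mem_lifts _).mp hl
  refine ⟨Q, ?_, ?_⟩
  · rintro rfl
    rw [Polynomial.map_zero] at hQ
    exact hP hQ.symm
  · rw [Polynomial.aeval_def, ← Polynomial.eval_map, hQ, h]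

lemma mem_MM_of_pow {F : LL} {n : ℕ} (hn : n ≠ 0) (h : F ^ n ∈ MM) : F ∈ MM := by
  refine mem_MM_of_root (X ^ n - C (F ^ n)) (Polynomial.X_pow_sub_C_ne_zero
    (Nat.pos_of_ne_zero hn) _) ?_ (by simp)
  intro i
  rw [Polynomial.coeff_sub, Polynomial.coeff_X_pow, Polynomial.coeff_C]
  refine sub_mem ?_ ?_
  · split_ifs
    · exact one_mem _
    · exact zero_mem _
  · split_ifs
    · exact h
    · exact zero_mem _

/-! ### Frames -/

namespace Frame

variable (Φ : Frame)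

lemma cl_zero : Φ.cl 0 = 0 := by
  have h := Φ.cl_alg 0
  rwa [map_zero, map_zero] at h

lemma cl_one : Φ.cl 1 = 1 := by
  have h := Φ.cl_alg 1
  rwa [map_one, map_one] at h

lemma cl_pow {F : LL} (hF : F ∈ MM) (n : ℕ) : Φ.cl (F ^ n) = Φ.cl F ^ n := by
  induction n with
  | zero => rw [pow_zero, pow_zero, cl_one]
  | succ n ih => rw [pow_succ, pow_succ, Φ.cl_mul _ (pow_mem hF n) _ hF, ih]

lemma cl_smul (c : kk) {F : LL} (hF : F ∈ MM) :
    Φ.cl (algebraMap kk LL c * F) = algebraMap kk Φ.A c * Φ.cl F := by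
  rw [Φ.cl_mul _ (C_mem c) _ hF, Φ.cl_alg]

lemma cl_sum {ι : Type*} (s : Finset ι) (f : ι → LL) (hf : ∀ i ∈ s, f i ∈ MM) :
    Φ.cl (∑ i ∈ s, f i) = ∑ i ∈ s, Φ.cl (f i) := by
  classical
  induction s using Finset.induction_on with
  | empty => rw [Finset.sum_empty, Finset.sum_empty, cl_zero]
  | insert a s ha ih =>
    rw [Finset.sum_insert ha, Finset.sum_insert ha,
      Φ.cl_add _ (hf a (Finset.mem_insert_self a s)) _
        (sum_mem fun i hi => hf i (Finset.mem_insert_of_mem hi)),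
      ih fun i hi => hf i (Finset.mem_insert_of_mem hi)]

lemma cl_prod {ι : Type*} (s : Finset ι) (f : ι → LL) (hf : ∀ i ∈ s, f i ∈ MM) :
    Φ.cl (∏ i ∈ s, f i) = ∏ i ∈ s, Φ.cl (f i) := by
  classical
  induction s using Finset.induction_on with
  | empty => rw [Finset.prod_empty, Finset.prod_empty, cl_one]
  | insert a s ha ih =>
    rw [Finset.prod_insert ha, Finset.prod_insert ha,
      Φ.cl_mul _ (hf a (Finset.mem_insert_self a s)) _
        (prod_mem fun i hi => hf i (Finset.mem_insert_of_mem hi)),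
      ih fun i hi => hf i (Finset.mem_insert_of_mem hi)]

lemma cl_inj_iff {F G : LL} (hF : F ∈ MM) (hG : G ∈ MM) : Φ.cl F = Φ.cl G ↔ F = G := by
  constructor
  · intro h
    have h1 : Φ.cl (F + G) = 0 := by
      rw [Φ.cl_add _ hF _ hG, h, ← two_mul]
      have h2 : (2 : Φ.A) = 0 := by
        have h3 : algebraMap kk Φ.A 2 = 0 := by
          rw [show (2 : kk) = 0 from CharTwo.two_eq_zero, map_zero]
        rwa [map_ofNat] at h3
      rw [h2, zero_mul]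
    have h4 := Φ.cl_inj _ (add_mem hF hG) h1
    have h5 : F + G = F - G := (CharTwo.sub_eq_add F G).symm
    rw [h5] at h4
    exact sub_eq_zero.mp h4
  · rintro rfl
    rfl

lemma exists_T (ω : kkˣ) : ∃ T : Φ.A ≃ₐ[kk] Φ.A, Φ.IsT ω T := Φ.ext_sig 1 ω odd_one

variable {Φ}

/-- The image of a vertex `v` under the translation `ω`. -/
lemma T_cl_sig (hME : ME_stmt) {ω : kkˣ} {T : Φ.A ≃ₐ[kk] Φ.A} (hT : Φ.IsT ω T) {e : ℕ}
    (he : Odd e) (ζ : kkˣ) {F : LL} (hF : F ∈ MM) :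
    T (Φ.cl (sig e ζ F)) = Φ.cl (sig e (ζ * ω ^ e) F) := by
  have he0 : e ≠ 0 := by rintro rfl; exact absurd he (by decide)
  rw [hT _ (hME e ζ F he hF), sig_sig one_ne_zero he0, one_mul]

lemma T_D (hME : ME_stmt) {ω : kkˣ} {T : Φ.A ≃ₐ[kk] Φ.A} (hT : Φ.IsT ω T) {e : ℕ}
    (he : Odd e) (ζ : kkˣ) : T (Φ.D (e, ζ)) = Φ.D (e, ζ * ω ^ e) :=
  T_cl_sig hME hT he ζ DDk_mem

lemma T_X (hME : ME_stmt) (hTH : THM_stmt) {ω : kkˣ} {T : Φ.A ≃ₐ[kk] Φ.A} (hT : Φ.IsT ω T)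
    {e : ℕ} (he : Odd e) (ζ : kkˣ) {s : ℕ} (hs : 2 ≤ s) {c : ℤ} (hc : Odd c) :
    T (Φ.X (e, ζ) s c) = Φ.X (e, ζ * ω ^ e) s c :=
  T_cl_sig hME hT he ζ (hTH s c hs hc)

lemma D_mem (hME : ME_stmt) {v : Vx} (hv : Odd v.1) : sig v.1 v.2 DDk ∈ MM :=
  hME _ _ _ hv DDk_mem

lemma X_mem (hME : ME_stmt) (hTH : THM_stmt) {v : Vx} (hv : Odd v.1) {s : ℕ} (hs : 2 ≤ s) {c : ℤ}
    (hc : Odd c) : sig v.1 v.2 (th s c) ∈ MM :=
  hME _ _ _ hv (hTH s c hs hc)

variable (Φ)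

lemma X_congr (v : Vx) (s : ℕ) {c c' : ℤ} (h : c ≡ c' [ZMOD 2 ^ s]) :
    Φ.X v s c = Φ.X v s c' := by
  unfold Frame.X
  rw [th_congr s h]

lemma X_neg (v : Vx) (s : ℕ) (c : ℤ) : Φ.X v s (-c) = Φ.X v s c := by
  unfold Frame.X
  rw [th_neg]

lemma X_congr' (v : Vx) (s : ℕ) {c c' : ℤ} (h : c ≡ c' [ZMOD 2 ^ s] ∨ c ≡ -c' [ZMOD 2 ^ s]) :
    Φ.X v s c = Φ.X v s c' := by
  rcases h with h | h
  · exact Φ.X_congr v s h
  · rw [Φ.X_congr v s h, X_neg]

lemma X_ne_zero (hME : ME_stmt) (hTH : THM_stmt) {v : Vx} (hv : Odd v.1) {s : ℕ} (hs : 2 ≤ s)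
    {c : ℤ} (hc : Odd c) : Φ.X v s c ≠ 0 := by
  intro h
  have h2 := Φ.cl_inj _ (X_mem hME hTH hv hs hc) h
  rw [← map_zero (sig v.1 v.2)] at h2
  exact th_ne_zero s c (sig_injective _ _ h2)

end Frame

end Pool.Agent.helper7.IG
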