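import Mathlib
import Pool.Agent.helper7.IG.Basic
import Pool.Agent.helper13.IG.R01
import Pool.Agent.helper13.IG.SQ
import Pool.Agent.helper13.IG.TR1
import Pool.Agent.helper15.IG.CO
import Pool.Agent.helper15.IG.MA
import Pool.Agent.helper15.IG.MB1
import Pool.Agent.helper17.IG.PHI3
import Pool.Agent.helper18.IG.TC
import Pool.Agent.helper18.IG.ZS
import Pool.Agent.helper34.IG.DI
import Pool.Agent.helper34.IG.PG
import Pool.Agent.helper34.IG.TRL
import Pool.Agent.helper34.IG.UD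
import Pool.Agent.helper41.IG.PSI
import Pool.Agent.helper46.IG.MEAS
import Pool.Agent.helper52.IG.HEN
import Pool.Agent.helper52.IG.IND
import Pool.Agent.helper6.IG.R3
import Pool.Agent.helper6.IG.ZE
import Pool.Agent.helper71.IG.CO1
import Pool.Agent.helper71.IG.GAP
import Pool.Agent.helper92.IG.DM
import Pool.Agent.helper92.IG.MB2
import Pool.Agent.helper92.IG.NF
import Pool.Agent.helper92.IG.R2
import Pool.Agent.helper92.IG.RES
import Pool.Agent.helper92.IG.UGM
import Pool.Agent.helper97.IG.LIO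
import Pool.Agent.helper97.IG.NB
import Pool.Agent.helper97.IG.NM
import Pool.Agent.helper97.IG.RA
import Pool.Agent.helper97.IG.TY
import Pool.Agent.helper97.IG.WT
import Pool.Agent.helper99.IG.FR
import Pool.Agent.helper99.IG.ME

/-!
# IG: assembly
-/

set_option autoImplicit false

namespace Pool.Agent.helper7.IG

theorem asm_psi (hF1 : F1_stmt) (hMB3 : MB3_stmt) : PSI_stmt :=
  PSI_of MA MB1 MB2 hMB3 hF1

theorem asm_ra (hF1 : F1_stmt) (hTHM : THM_stmt) (hpsi : PSI_stmt) : RA_stmt := by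
  have hME := ME_of hpsi
  have hCO1 := CO1_of hF1
  have hUGM := UGM_of hF1 hME hTHM hCO1
  have hFR := FR_of hME hTHM
  have hDI := DI_of hME
  have hNB := NB_of hpsi hME
  have hNF := NF_of hpsi hME
  have hTYM := TYM_of hNB
  have hNSF := NSF_of hME
  have hTRL := TRL_of hME hDI hNB hNF TY hTYM
  have hTR1 := TR1_of hME hDI hNB TY hTYM hNSF hTRL
  have hTR2 := TR2_of hME hDI hNB TY hTYM hNSF hTRL
  have hUD := UD_of R0 R1 R2 P3 hME hTHM
  have hNSX := NSX_of hUD hME hTHM
  have hDM := DM_of R3 R3U hME hTHM hDI hNB hNF hUD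
  have hPG := PG_of hME hTHM P3 hNSF hTR1 hTR2 hUD hNSX hDM
  have hCO := CO_of hF1 hME hTHM hUGM hCO1
  exact RA_of hFR hF1 hME hTHM hUGM WT SQ hDI TY hTYM hUD hPG hCO

theorem asm_ze : ZE_stmt := ZE_of TC RES (ZS_of TC HEN LIO PHI3)

theorem asm_meas (hF1 : F1_stmt) (hTHM : THM_stmt) (hMB3 : MB3_stmt) : MEAS_stmt := by
  have hpsi := asm_psi hF1 hMB3
  have hME := ME_of hpsi
  exact MEAS_of (asm_ra hF1 hTHM hpsi)
    (WMM_of (UGM_of hF1 hME hTHM (CO1_of hF1)) WT hME) (IND_of TC) NM asm_ze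

end Pool.Agent.helper7.IG
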