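import Mathlib
import Pool.Agent.helper7.IG.Asm
import Pool.Agent.helper31.IG.F1
import Pool.Agent.helper43.IG.MB3
import Pool.Agent.helper81.IG.THM

/-!
# IG: the final theorem
-/

set_option autoImplicit false

namespace Pool.Agent.helper7.IG

theorem meas : MEAS_stmt := asm_meas F1 (THM_of R0 R1) (MB3_of MA)

theorem gap : GAP_stmt := GAP_of meas

end Pool.Agent.helper7.IG
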